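import Pool.Agent.Work.Brouwer70.Brouwer

/-!
# A stable gadget: a graph arc which inscribes a given quadrilateral stably in the sup norm
-/

open Set Metric

namespace Pool.Agent.Work.MP_7ec17a_gt

/-- a map which is uniformly close to a linear isomorphism on a ball has a zero there -/
theorem exists_zero {V W : Type*} [NormedAddCommGroup V] [NormedSpace ℝ V] [FiniteDimensional ℝ V]
    [NormedAddCommGroup W] [NormedSpace ℝ W] (L : V ≃L[ℝ] W) {r K : ℝ} (hr : 0 ≤ r)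
    (hK : ∀ w, ‖L.symm w‖ ≤ K * ‖w‖) (F : V → W) (hF : ContinuousOn F (closedBall 0 r))
    {δ : ℝ} (hK0 : 0 ≤ K) (hδ : K * δ ≤ r) (h : ∀ x ∈ closedBall (0 : V) r, ‖F x - L x‖ ≤ δ) :
    ∃ x ∈ closedBall (0 : V) r, F x = 0 := by
  obtain ⟨x, hx, hfx⟩ := Pool.Agent.Work.Brouwer70.brouwer_convex (closedBall (0 : V) r)
    ⟨0, by simpa using hr⟩ (isCompact_closedBall _ _) (convex_closedBall _ _)
    (fun x => x - L.symm (F x)) (continuousOn_id.sub (L.symm.continuous.comp_continuousOn hF)) (by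
      intro x hx
      rw [mem_closedBall_zero_iff]
      have h1 : x - L.symm (F x) = - L.symm (F x - L x) := by
        rw [map_sub, L.symm_apply_apply]
        abel
      show ‖x - L.symm (F x)‖ ≤ r
      rw [h1, norm_neg]
      calc ‖L.symm (F x - L x)‖ ≤ K * ‖F x - L x‖ := hK _
        _ ≤ K * δ := by gcongr; exact h x hx
        _ ≤ r := hδ)
  refine ⟨x, hx, ?_⟩
  have h2 : L.symm (F x) = 0 := by simpa using hfx
  simpa using h2

/-- a real number avoiding the zeros of finitely many affine functions `a + t b`, `(a,b) ≠ 0` -/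
theorem exists_avoid (S : Finset (ℝ × ℝ)) (hS : ∀ p ∈ S, p ≠ (0, 0)) :
    ∃ t : ℝ, ∀ p ∈ S, p.1 + t * p.2 ≠ 0 := by
  classical
  obtain ⟨t, ht⟩ := Infinite.exists_notMem_finset (S.image fun p => - p.1 / p.2)
  refine ⟨t, fun p hp h0 => ?_⟩
  by_cases h2 : p.2 = 0
  · have h1 : p.1 = 0 := by rw [h2, mul_zero, add_zero] at h0; exact h0
    exact hS p hp (Prod.ext h1 h2)
  · refine ht (Finset.mem_image.2 ⟨p, hp, ?_⟩)
    field_simp
    linarith

/-- `Re ((1 + i t) w) = Re w - t Im w` -/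
theorem exists_rot (S : Finset ℂ) (hS : ∀ w ∈ S, w ≠ 0) :
    ∃ t : ℝ, ∀ w ∈ S, ((1 + t * Complex.I) * w).re ≠ 0 := by
  classical
  obtain ⟨t, ht⟩ := exists_avoid (S.image fun w => (w.re, - w.im)) (by
    intro p hp
    obtain ⟨w, hw, rfl⟩ := Finset.mem_image.1 hp
    intro h
    rw [Prod.mk.injEq] at h
    exact hS w hw (Complex.ext (by simpa using h.1) (by simpa using h.2)))
  refine ⟨t, fun w hw => ?_⟩
  have h1 := ht _ (Finset.mem_image.2 ⟨w, hw, rfl⟩)
  intro h2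
  apply h1
  simp [Complex.mul_re] at h2
  simp only
  linarith

/-- a continuous function which is affine with prescribed value and slope near prescribed points -/
theorem exists_affine_near (x y m : Fin 4 → ℝ) {r : ℝ} (hr : 0 < r)
    (hx : ∀ i j, i ≠ j → 4 * r ≤ |x i - x j|) :
    ∃ h : C(ℝ, ℝ), ∀ i, ∀ t : ℝ, |t| ≤ r → h (x i + t) = y i + m i * t := by
  refine ⟨⟨fun s => ∑ i, max 0 (min 1 (2 - |s - x i| / r)) * (y i + m i * (s - x i)),
    by fun_prop⟩, fun i t ht => ?_⟩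
  show ∑ j, max 0 (min 1 (2 - |x i + t - x j| / r)) * (y j + m j * (x i + t - x j)) = _
  rw [Finset.sum_eq_single i]
  · have h1 : x i + t - x i = t := by ring
    rw [h1]
    have h2 : |t| / r ≤ 1 := by rw [div_le_one hr]; exact ht
    rw [min_eq_left (by linarith), max_eq_right (by norm_num)]
    ring
  · intro j _ hj
    have h1 : 3 * r ≤ |x i + t - x j| := by
      have h2 := hx i j (Ne.symm hj)
      have h3 : |x i - x j| ≤ |x i + t - x j| + |t| := by
        have : x i - x j = (x i + t - x j) - t := by ring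
        rw [this]
        exact abs_sub _ _
      linarith
    have h2 : 3 ≤ |x i + t - x j| / r := by rw [le_div_iff₀ hr]; exact h1
    rw [max_eq_left ((min_le_right _ _).trans (by linarith)), zero_mul]
  · intro h
    exact absurd (Finset.mem_univ i) h

theorem ker_aux {lam mu d1 : ℂ} (hl1 : lam - 1 ≠ 0) (hm1 : mu - 1 ≠ 0)
    (hd1l : ((starRingEnd ℂ) (1 - lam) * lam * d1).im ≠ 0)
    (hd1m : ((starRingEnd ℂ) (1 - mu) * mu * d1).im ≠ 0) {s0 s1 s2 s3 : ℝ}
    (ha : (s2 : ℂ) * (lam * d1) - (1 - lam) * (s0 : ℂ) - lam * ((s1 : ℂ) * d1) = 0)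
    (hb : (s3 : ℂ) * (1 - mu) - (1 - mu) * (s0 : ℂ) - mu * ((s1 : ℂ) * d1) = 0) :
    s0 = 0 ∧ s1 = 0 ∧ s2 = 0 ∧ s3 = 0 := by
  have hll : ∀ z : ℂ, ((starRingEnd ℂ) z * z).im = 0 := by
    intro z
    rw [mul_comm, Complex.mul_conj]
    exact Complex.ofReal_im _
  have h1 : s2 - s1 = 0 := by
    have h : ((s2 - s1 : ℝ) : ℂ) * ((starRingEnd ℂ) (1 - lam) * lam * d1) =
        (s0 : ℂ) * ((starRingEnd ℂ) (1 - lam) * (1 - lam)) := by
      push_cast
      linear_combination (starRingEnd ℂ) (1 - lam) * ha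
    have h2 := congrArg Complex.im h
    rw [Complex.im_ofReal_mul, Complex.im_ofReal_mul, hll, mul_zero] at h2
    exact (mul_eq_zero.1 h2).resolve_right hd1l
  have h2 : s1 = 0 := by
    have h : ((s1 : ℝ) : ℂ) * ((starRingEnd ℂ) (1 - mu) * mu * d1) =
        ((s3 - s0 : ℝ) : ℂ) * ((starRingEnd ℂ) (1 - mu) * (1 - mu)) := by
      push_cast
      linear_combination -(starRingEnd ℂ) (1 - mu) * hb
    have h2 := congrArg Complex.im h
    rw [Complex.im_ofReal_mul, Complex.im_ofReal_mul, hll, mul_zero] at h2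
    exact (mul_eq_zero.1 h2).resolve_right hd1m
  have h5 : s2 = 0 := by linarith
  have h3 : s0 = 0 := by
    rw [h2, h5] at ha
    have h : (s0 : ℂ) = 0 := by
      apply mul_left_cancel₀ hl1
      rw [mul_zero]
      push_cast at ha
      linear_combination ha
    exact_mod_cast h
  have h4 : s3 = 0 := by
    rw [h2, h3] at hb
    have h : (s3 : ℂ) = 0 := by
      apply mul_left_cancel₀ hm1
      rw [mul_zero]
      push_cast at hb
      linear_combination -hb
    exact_mod_cast h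
  exact ⟨h3, h2, h5, h4⟩

set_option maxHeartbeats 1000000 in
/-- **the gadget**: some graph arc inscribes similar copies of the quadrilateral `q`, stably under
perturbations which are small in the sup norm. -/
theorem gadget (q : Fin 4 → ℂ) (hq : Function.Injective q) :
    ∃ (h : C(ℝ, ℝ)) (M : ℕ) (δ : ℝ), 0 < δ ∧ ∀ ψ : ℝ → ℂ, ContinuousOn ψ (Icc (-(M : ℝ)) M) →
      (∀ s ∈ Icc (-(M : ℝ)) M, ‖ψ s - (s + h s * Complex.I)‖ ≤ δ) →
      ∃ α β : ℂ, α ≠ 0 ∧ ∀ i, ∃ s ∈ Icc (-(M : ℝ)) M, α * q i + β = ψ s := by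
  have hne : ∀ i j, i ≠ j → q i - q j ≠ 0 := fun i j hij h => hij (hq (sub_eq_zero.1 h))
  have h10 : q 1 - q 0 ≠ 0 := hne 1 0 (by decide)
  set lam : ℂ := (q 2 - q 0) / (q 1 - q 0) with hlam
  set mu : ℂ := (q 3 - q 0) / (q 1 - q 0) with hmu
  have e20 : q 2 - q 0 = lam * (q 1 - q 0) := by rw [hlam]; field_simp
  have e30 : q 3 - q 0 = mu * (q 1 - q 0) := by rw [hmu]; field_simp
  have hl0 : lam ≠ 0 := div_ne_zero (hne 2 0 (by decide)) h10
  have hm0 : mu ≠ 0 := div_ne_zero (hne 3 0 (by decide)) h10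
  have hl1 : lam - 1 ≠ 0 := by
    intro h
    apply hne 2 1 (by decide)
    linear_combination e20 + (q 1 - q 0) * h
  have hm1 : mu - 1 ≠ 0 := by
    intro h
    apply hne 3 1 (by decide)
    linear_combination e30 + (q 1 - q 0) * h
  have hlm : lam - mu ≠ 0 := by
    intro h
    apply hne 2 3 (by decide)
    linear_combination e20 - e30 + (q 1 - q 0) * h
  have hcl : (starRingEnd ℂ) (1 - lam) ≠ 0 := by
    rw [Ne, map_eq_zero]
    intro h
    exact hl1 (by linear_combination -h)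
  have hcm : (starRingEnd ℂ) (1 - mu) ≠ 0 := by
    rw [Ne, map_eq_zero]
    intro h
    exact hm1 (by linear_combination -h)
  -- the direction `d1`
  obtain ⟨t1, ht1⟩ := exists_rot {Complex.I * ((starRingEnd ℂ) (1 - lam) * lam),
      Complex.I * ((starRingEnd ℂ) (1 - mu) * mu)} (by
    intro w hw
    simp only [Finset.mem_insert, Finset.mem_singleton] at hw
    rcases hw with rfl | rfl
    · exact mul_ne_zero Complex.I_ne_zero (mul_ne_zero hcl hl0)
    · exact mul_ne_zero Complex.I_ne_zero (mul_ne_zero hcm hm0))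
  set d1 : ℂ := 1 + t1 * Complex.I with hd1
  have hd1l : ((starRingEnd ℂ) (1 - lam) * lam * d1).im ≠ 0 := by
    have h := ht1 _ (Finset.mem_insert_self _ _)
    intro h0
    apply h
    have : d1 * (Complex.I * ((starRingEnd ℂ) (1 - lam) * lam)) =
        Complex.I * ((starRingEnd ℂ) (1 - lam) * lam * d1) := by ring
    rw [this, Complex.I_mul_re, h0, neg_zero]
  have hd1m : ((starRingEnd ℂ) (1 - mu) * mu * d1).im ≠ 0 := by
    have h := ht1 _ (Finset.mem_insert_of_mem (Finset.mem_singleton_self _))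
    intro h0
    apply h
    have : d1 * (Complex.I * ((starRingEnd ℂ) (1 - mu) * mu)) =
        Complex.I * ((starRingEnd ℂ) (1 - mu) * mu * d1) := by ring
    rw [this, Complex.I_mul_re, h0, neg_zero]
  have hd10 : d1 ≠ 0 := by
    intro h
    rw [h, mul_zero] at hd1l
    exact hd1l rfl
  -- the rotation `ω`
  set Q : Fin 4 → ℂ := ![0, 1, lam, mu] with hQ
  set d : Fin 4 → ℂ := ![1, d1, lam * d1, 1 - mu] with hd
  have hQne : ∀ i j, i ≠ j → Q i - Q j ≠ 0 := by
    have hl2 : lam ≠ 1 := fun h => hl1 (sub_eq_zero.2 h)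
    have hm2 : mu ≠ 1 := fun h => hm1 (sub_eq_zero.2 h)
    have hlm2 : lam ≠ mu := fun h => hlm (sub_eq_zero.2 h)
    intro i j hij
    rw [sub_ne_zero]
    fin_cases i <;> fin_cases j <;>
      first
      | exact absurd rfl hij
      | simp [hQ, hl0, hm0, hl2, hm2, hlm2, hl0.symm, hm0.symm, hl2.symm, hm2.symm, hlm2.symm]
  have hdne : ∀ i, d i ≠ 0 := by
    have hm2 : 1 - mu ≠ 0 := fun h => hm1 (by linear_combination -h)
    intro i
    fin_cases i
    · exact one_ne_zero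
    · exact hd10
    · exact mul_ne_zero hl0 hd10
    · exact hm2
  obtain ⟨t2, ht2⟩ := exists_rot
    ((Finset.univ.filter fun p : Fin 4 × Fin 4 => p.1 ≠ p.2).image (fun p => Q p.1 - Q p.2) ∪
      Finset.univ.image d) (by
    intro w hw
    rw [Finset.mem_union, Finset.mem_image, Finset.mem_image] at hw
    rcases hw with ⟨p, hp, rfl⟩ | ⟨i, -, rfl⟩
    · exact hQne _ _ (Finset.mem_filter.1 hp).2
    · exact hdne i)
  set om : ℂ := 1 + t2 * Complex.I with hom
  have hreQ : ∀ i j, i ≠ j → (om * Q i).re - (om * Q j).re ≠ 0 := by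
    intro i j hij
    rw [← Complex.sub_re, ← mul_sub]
    exact ht2 _ (Finset.mem_union_left _ (Finset.mem_image.2 ⟨(i, j), by simpa using hij, rfl⟩))
  have hred : ∀ i, (om * d i).re ≠ 0 := fun i =>
    ht2 _ (Finset.mem_union_right _ (Finset.mem_image.2 ⟨i, Finset.mem_univ _, rfl⟩))
  have hom0 : om ≠ 0 := by
    intro h
    apply hred 0
    rw [h, zero_mul, Complex.zero_re]
  set x : Fin 4 → ℝ := fun i => (om * Q i).re with hx
  set y : Fin 4 → ℝ := fun i => (om * Q i).im with hy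
  set m : Fin 4 → ℝ := fun i => (om * d i).im / (om * d i).re with hm
  set e : Fin 4 → ℂ := fun i => 1 + m i * Complex.I with he
  have hee : ∀ i, e i = ((om * d i).re)⁻¹ * (om * d i) := by
    intro i
    have h0 : ((om * d i).re : ℂ) ≠ 0 := by exact_mod_cast hred i
    rw [eq_comm, Complex.ofReal_inv, inv_mul_eq_iff_eq_mul₀ h0, he, hm]
    simp only
    rw [Complex.ofReal_div, mul_add, mul_one, ← mul_assoc, mul_div_cancel₀ _ h0]
    exact (Complex.re_add_im _).symm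
  -- the size `r`
  obtain ⟨r, hr, hxr⟩ : ∃ r : ℝ, 0 < r ∧ ∀ i j, i ≠ j → 4 * r ≤ |x i - x j| := by
    have h1 : ∃ ρ : ℝ, 0 < ρ ∧ ∀ p ∈ (Finset.univ.filter fun p : Fin 4 × Fin 4 => p.1 ≠ p.2),
        ρ ≤ |x p.1 - x p.2| := by
      have hS : (Finset.univ.filter fun p : Fin 4 × Fin 4 => p.1 ≠ p.2).Nonempty :=
        ⟨(0, 1), by decide⟩
      obtain ⟨p, hp, hpm⟩ := Finset.exists_min_image _
        (fun p : Fin 4 × Fin 4 => |x p.1 - x p.2|) hS
      exact ⟨_, abs_pos.2 (hreQ _ _ (Finset.mem_filter.1 hp).2), hpm⟩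
    obtain ⟨ρ, hρ, h2⟩ := h1
    refine ⟨ρ / 4, by positivity, fun i j hij => ?_⟩
    have h3 := h2 (i, j) (Finset.mem_filter.2 ⟨Finset.mem_univ _, hij⟩)
    simp only at h3
    linarith
  obtain ⟨h, hh⟩ := exists_affine_near x y m hr hxr
  -- the number `M`
  obtain ⟨M, hM⟩ : ∃ M : ℕ, ∀ i, |x i| + r ≤ M := by
    obtain ⟨M, hM⟩ := exists_nat_ge (∑ i, |x i| + r)
    refine ⟨M, fun i => le_trans ?_ hM⟩
    gcongr
    exact Finset.single_le_sum (f := fun i => |x i|) (fun _ _ => abs_nonneg _) (Finset.mem_univ i)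
  -- the linear map
  let L0 : (Fin 4 → ℝ) →ₗ[ℝ] ℂ × ℂ :=
    { toFun := fun t => (t 2 * e 2 - (1 - lam) * (t 0 * e 0) - lam * (t 1 * e 1),
        t 3 * e 3 - (1 - mu) * (t 0 * e 0) - mu * (t 1 * e 1))
      map_add' := by
        intro a b
        refine Prod.ext ?_ ?_
        · simp only [Pi.add_apply, Complex.ofReal_add, Prod.mk_add_mk]
          ring
        · simp only [Pi.add_apply, Complex.ofReal_add, Prod.mk_add_mk]
          ring
      map_smul' := by
        intro a b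
        refine Prod.ext ?_ ?_
        · simp only [Pi.smul_apply, smul_eq_mul, Complex.ofReal_mul, RingHom.id_apply, Prod.smul_mk,
            Complex.real_smul]
          ring
        · simp only [Pi.smul_apply, smul_eq_mul, Complex.ofReal_mul, RingHom.id_apply, Prod.smul_mk,
            Complex.real_smul]
          ring }
  have hL0 : Function.Injective L0 := by
    rw [injective_iff_map_eq_zero]
    intro t ht
    have ha : (t 2 * e 2 - (1 - lam) * (t 0 * e 0) - lam * (t 1 * e 1) : ℂ) = 0 :=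
      congrArg Prod.fst ht
    have hb : (t 3 * e 3 - (1 - mu) * (t 0 * e 0) - mu * (t 1 * e 1) : ℂ) = 0 :=
      congrArg Prod.snd ht
    rw [hee, hee, hee] at ha hb
    have hd0' : d 0 = 1 := rfl
    have hd1' : d 1 = d1 := rfl
    have hd2' : d 2 = lam * d1 := rfl
    have hd3' : d 3 = 1 - mu := rfl
    set r0 : ℝ := ((om * d 0).re)⁻¹ with hr0
    set r1 : ℝ := ((om * d 1).re)⁻¹ with hr1
    set r2 : ℝ := ((om * d 2).re)⁻¹ with hr2
    set r3 : ℝ := ((om * d 3).re)⁻¹ with hr3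
    have hr0' : r0 ≠ 0 := inv_ne_zero (hred 0)
    have hr1' : r1 ≠ 0 := inv_ne_zero (hred 1)
    have hr2' : r2 ≠ 0 := inv_ne_zero (hred 2)
    have hr3' : r3 ≠ 0 := inv_ne_zero (hred 3)
    rw [hd2', hd0', hd1'] at ha
    rw [hd3', hd0', hd1'] at hb
    have ha' : ((t 2 * r2 : ℝ) : ℂ) * (lam * d1) - (1 - lam) * ((t 0 * r0 : ℝ) : ℂ)
        - lam * (((t 1 * r1 : ℝ) : ℂ) * d1) = 0 := by
      apply mul_left_cancel₀ hom0
      push_cast
      linear_combination ha
    have hb' : ((t 3 * r3 : ℝ) : ℂ) * (1 - mu) - (1 - mu) * ((t 0 * r0 : ℝ) : ℂ)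
        - mu * (((t 1 * r1 : ℝ) : ℂ) * d1) = 0 := by
      apply mul_left_cancel₀ hom0
      push_cast
      linear_combination hb
    obtain ⟨h3, h2, h5, h4⟩ := ker_aux hl1 hm1 hd1l hd1m ha' hb'
    funext i
    fin_cases i
    · exact (mul_eq_zero.1 h3).resolve_right hr0'
    · exact (mul_eq_zero.1 h2).resolve_right hr1'
    · exact (mul_eq_zero.1 h5).resolve_right hr2'
    · exact (mul_eq_zero.1 h4).resolve_right hr3'
  have hfr : Module.finrank ℝ (Fin 4 → ℝ) = Module.finrank ℝ (ℂ × ℂ) := by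
    rw [Module.finrank_fin_fun, Module.finrank_prod, Complex.finrank_real_complex]
  let L : (Fin 4 → ℝ) ≃L[ℝ] ℂ × ℂ :=
    (LinearEquiv.ofInjectiveOfFinrankEq L0 hL0 hfr).toContinuousLinearEquiv
  have hL : ∀ t, L t = (t 2 * e 2 - (1 - lam) * (t 0 * e 0) - lam * (t 1 * e 1),
        t 3 * e 3 - (1 - mu) * (t 0 * e 0) - mu * (t 1 * e 1)) := fun t => rfl
  set K : ℝ := ‖(L.symm : ℂ × ℂ →L[ℝ] (Fin 4 → ℝ))‖ with hK
  have hK0 : 0 ≤ K := norm_nonneg _
  have hKs : ∀ w, ‖L.symm w‖ ≤ K * ‖w‖ := fun w =>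
    ContinuousLinearMap.le_opNorm (L.symm : ℂ × ℂ →L[ℝ] (Fin 4 → ℝ)) w
  set A : ℝ := 2 + 2 * ‖lam‖ + 2 * ‖mu‖ with hA
  have hA0 : 0 < A := by positivity
  refine ⟨h, M, min (r / 2) (r / ((K + 1) * A)), by positivity, fun ψ hψ hψd => ?_⟩
  set δ : ℝ := min (r / 2) (r / ((K + 1) * A)) with hδ
  have hδ0 : 0 < δ := by positivity
  have hδr : δ ≤ r / 2 := min_le_left _ _
  have hδA : K * (A * δ) ≤ r := by
    have h1 : δ ≤ r / ((K + 1) * A) := min_le_right _ _
    rw [le_div_iff₀ (by positivity)] at h1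
    nlinarith [mul_pos hA0 hδ0]
  have hxM : ∀ i, ∀ t : ℝ, |t| ≤ r → x i + t ∈ Icc (-(M : ℝ)) M := by
    intro i t ht
    have h1 := hM i
    rw [mem_Icc, ← abs_le]
    exact (abs_add_le _ _).trans (by linarith)
  have hψe : ∀ i, ∀ t : ℝ, |t| ≤ r → ‖ψ (x i + t) - (om * Q i + t * e i)‖ ≤ δ := by
    intro i t ht
    have h1 := hψd _ (hxM i t ht)
    rw [hh i t ht] at h1
    have h2 : ((x i + t : ℝ) : ℂ) + ((y i + m i * t : ℝ) : ℂ) * Complex.I =
        om * Q i + t * e i := by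
      have h3 : om * Q i = x i + y i * Complex.I := (Complex.re_add_im _).symm
      rw [h3, he]
      push_cast
      ring
    rw [h2] at h1
    exact h1
  have hti : ∀ t ∈ closedBall (0 : Fin 4 → ℝ) r, ∀ i, |t i| ≤ r := by
    intro t ht i
    rw [mem_closedBall_zero_iff] at ht
    exact (norm_le_pi_norm t i).trans ht
  obtain ⟨t, ht, hFt⟩ := exists_zero L hr.le hKs
    (fun t : Fin 4 → ℝ => ((ψ (x 2 + t 2) - ψ (x 0 + t 0) - lam * (ψ (x 1 + t 1) - ψ (x 0 + t 0)),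
      ψ (x 3 + t 3) - ψ (x 0 + t 0) - mu * (ψ (x 1 + t 1) - ψ (x 0 + t 0))) : ℂ × ℂ)) (by
      have hc : ∀ i, ContinuousOn (fun t : Fin 4 → ℝ => ψ (x i + t i)) (closedBall 0 r) := by
        intro i
        refine hψ.comp (by fun_prop) ?_
        intro t ht
        exact hxM i _ (hti t ht i)
      exact ((((hc 2).sub (hc 0)).sub (continuousOn_const.mul ((hc 1).sub (hc 0)))).prodMk
        (((hc 3).sub (hc 0)).sub (continuousOn_const.mul ((hc 1).sub (hc 0)))))) hK0 hδA (by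
      intro t ht
      have h0 := hψe 0 _ (hti t ht 0)
      have h1 := hψe 1 _ (hti t ht 1)
      have h2 := hψe 2 _ (hti t ht 2)
      have h3 := hψe 3 _ (hti t ht 3)
      have hQ0 : Q 0 = 0 := rfl
      have hQ1 : Q 1 = 1 := rfl
      have hQ2 : Q 2 = lam := rfl
      have hQ3 : Q 3 = mu := rfl
      rw [hQ0] at h0
      rw [hQ1] at h1
      rw [hQ2] at h2
      rw [hQ3] at h3
      set u0 : ℂ := ψ (x 0 + t 0) - (om * 0 + t 0 * e 0) with hu0
      set u1 : ℂ := ψ (x 1 + t 1) - (om * 1 + t 1 * e 1) with hu1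
      set u2 : ℂ := ψ (x 2 + t 2) - (om * lam + t 2 * e 2) with hu2
      set u3 : ℂ := ψ (x 3 + t 3) - (om * mu + t 3 * e 3) with hu3
      rw [hL, Prod.mk_sub_mk]
      have e1 : ψ (x 2 + t 2) - ψ (x 0 + t 0) - lam * (ψ (x 1 + t 1) - ψ (x 0 + t 0)) -
          (t 2 * e 2 - (1 - lam) * (t 0 * e 0) - lam * (t 1 * e 1)) =
          u2 - u0 - lam * (u1 - u0) := by
        rw [hu0, hu1, hu2]
        ring
      have e2 : ψ (x 3 + t 3) - ψ (x 0 + t 0) - mu * (ψ (x 1 + t 1) - ψ (x 0 + t 0)) -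
          (t 3 * e 3 - (1 - mu) * (t 0 * e 0) - mu * (t 1 * e 1)) =
          u3 - u0 - mu * (u1 - u0) := by
        rw [hu0, hu1, hu3]
        ring
      have hgen : ∀ v c : ℂ, ‖v‖ ≤ δ → ‖v - u0 - c * (u1 - u0)‖ ≤ (2 + 2 * ‖c‖) * δ := by
        intro v c hv
        calc ‖v - u0 - c * (u1 - u0)‖ ≤ ‖v - u0‖ + ‖c * (u1 - u0)‖ := norm_sub_le _ _
          _ ≤ (‖v‖ + ‖u0‖) + ‖c‖ * (‖u1‖ + ‖u0‖) := by
              rw [norm_mul]
              gcongr
              · exact norm_sub_le _ _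
              · exact norm_sub_le _ _
          _ ≤ (δ + δ) + ‖c‖ * (δ + δ) := by gcongr
          _ = (2 + 2 * ‖c‖) * δ := by ring
      rw [e1, e2, Prod.norm_def]
      refine max_le ((hgen u2 lam h2).trans ?_) ((hgen u3 mu h3).trans ?_)
      · have : 0 ≤ ‖mu‖ := norm_nonneg _
        gcongr
        rw [hA]
        linarith
      · have : 0 ≤ ‖lam‖ := norm_nonneg _
        gcongr
        rw [hA]
        linarith)
  have hA1 : ψ (x 2 + t 2) - ψ (x 0 + t 0) - lam * (ψ (x 1 + t 1) - ψ (x 0 + t 0)) = 0 :=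
    congrArg Prod.fst hFt
  have hA2 : ψ (x 3 + t 3) - ψ (x 0 + t 0) - mu * (ψ (x 1 + t 1) - ψ (x 0 + t 0)) = 0 :=
    congrArg Prod.snd hFt
  have hne01 : ψ (x 1 + t 1) - ψ (x 0 + t 0) ≠ 0 := by
    intro h0
    have h1 := hψd _ (hxM 1 _ (hti t ht 1))
    have h2 := hψd _ (hxM 0 _ (hti t ht 0))
    have h3 : |x 1 + t 1 - (x 0 + t 0)| ≤ 2 * δ := by
      have h4 : |(ψ (x 1 + t 1) - (((x 1 + t 1 : ℝ) : ℂ) + h (x 1 + t 1) * Complex.I)).re| ≤ δ :=
        (Complex.abs_re_le_norm _).trans h1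
      have h5 : |(ψ (x 0 + t 0) - (((x 0 + t 0 : ℝ) : ℂ) + h (x 0 + t 0) * Complex.I)).re| ≤ δ :=
        (Complex.abs_re_le_norm _).trans h2
      have h6 : ∀ a b : ℝ, (((a : ℝ) : ℂ) + b * Complex.I).re = a := by
        intro a b
        simp
      rw [Complex.sub_re, h6] at h4 h5
      have h7 : (ψ (x 1 + t 1)).re = (ψ (x 0 + t 0)).re := by rw [sub_eq_zero.1 h0]
      rw [abs_le] at h4 h5 ⊢
      constructor <;> linarith [h4.1, h4.2, h5.1, h5.2]
    have h4 := hxr 1 0 (by decide)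
    have h5 : |x 1 - x 0| ≤ |x 1 + t 1 - (x 0 + t 0)| + |t 1| + |t 0| := by
      have : x 1 - x 0 = (x 1 + t 1 - (x 0 + t 0)) - t 1 + t 0 := by ring
      rw [this]
      exact (abs_add_le _ _).trans (by gcongr; exact abs_sub _ _)
    have h6 := hti t ht 0
    have h7 := hti t ht 1
    linarith
  refine ⟨(ψ (x 1 + t 1) - ψ (x 0 + t 0)) / (q 1 - q 0),
    ψ (x 0 + t 0) - (ψ (x 1 + t 1) - ψ (x 0 + t 0)) / (q 1 - q 0) * q 0,
    div_ne_zero hne01 h10, fun i => ⟨x i + t i, hxM i _ (hti t ht i), ?_⟩⟩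
  have hgen : ∀ i, (ψ (x 1 + t 1) - ψ (x 0 + t 0)) / (q 1 - q 0) * q i +
      (ψ (x 0 + t 0) - (ψ (x 1 + t 1) - ψ (x 0 + t 0)) / (q 1 - q 0) * q 0) =
      (ψ (x 1 + t 1) - ψ (x 0 + t 0)) * ((q i - q 0) / (q 1 - q 0)) + ψ (x 0 + t 0) := by
    intro i
    ring
  rw [hgen]
  fin_cases i
  · simp
  · simp only [Fin.mk_one]
    rw [div_self h10]
    ring
  · show (ψ (x 1 + t 1) - ψ (x 0 + t 0)) * lam + ψ (x 0 + t 0) = ψ (x 2 + t 2)
    linear_combination -hA1
  · show (ψ (x 1 + t 1) - ψ (x 0 + t 0)) * mu + ψ (x 0 + t 0) = ψ (x 3 + t 3)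
    linear_combination -hA2

end Pool.Agent.Work.MP_7ec17a_gt
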