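import Pool.Agent.Work.MP_7ec17a_gt.Insert

/-!
# Generic Jordan curves inscribe all quadrilaterals
-/

open Set Metric Topology

namespace Pool.Agent.Work.MP_7ec17a_gt

/-- the set of curves which contain, inside the arc `(e1, e2)`, a `δ`-approximate similar copy of the
graph of `h` over `[-M, M]` -/
def U (h : C(ℝ, ℝ)) (M : ℕ) (δ : ℝ) (e1 e2 : ℝ) : Set C(Circle, ℂ) :=
  {f | ∃ (t0 σ : ℝ) (z0 c : ℂ), 0 < σ ∧ c ≠ 0 ∧ (∀ s ∈ Icc (-(M : ℝ)) M, t0 + σ * s ∈ Ioo e1 e2) ∧
    ∀ s ∈ Icc (-(M : ℝ)) M,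
      ‖f (Circle.exp (t0 + σ * s)) - (z0 + c * (s + h s * Complex.I))‖ < δ * ‖c‖}

theorem isOpen_U (h : C(ℝ, ℝ)) (M : ℕ) (δ : ℝ) (e1 e2 : ℝ) : IsOpen (U h M δ e1 e2) := by
  rw [Metric.isOpen_iff]
  rintro f ⟨t0, σ, z0, c, hσ, hc, hs1, hs2⟩
  have hne : (Icc (-(M : ℝ)) M).Nonempty := ⟨0, by simp⟩
  obtain ⟨s0, hs0, hmax⟩ := isCompact_Icc.exists_isMaxOn hne
    (f := fun s : ℝ => ‖f (Circle.exp (t0 + σ * s)) - (z0 + c * (s + h s * Complex.I))‖) (by fun_prop)
  refine ⟨δ * ‖c‖ - ‖f (Circle.exp (t0 + σ * s0)) - (z0 + c * (s0 + h s0 * Complex.I))‖,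
    sub_pos.2 (hs2 s0 hs0), fun g hg => ⟨t0, σ, z0, c, hσ, hc, hs1, fun s hs => ?_⟩⟩
  rw [mem_ball] at hg
  have h1 : ‖g (Circle.exp (t0 + σ * s)) - f (Circle.exp (t0 + σ * s))‖ ≤ dist g f := by
    rw [← dist_eq_norm]
    exact ContinuousMap.dist_apply_le_dist _
  have h2 := hmax hs
  simp only [mem_ofPred_eq] at h2
  calc ‖g (Circle.exp (t0 + σ * s)) - (z0 + c * (s + h s * Complex.I))‖
      = ‖(g (Circle.exp (t0 + σ * s)) - f (Circle.exp (t0 + σ * s))) +
        (f (Circle.exp (t0 + σ * s)) - (z0 + c * (s + h s * Complex.I)))‖ := by congr 1; ring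
    _ ≤ _ := norm_add_le _ _
    _ < δ * ‖c‖ := by linarith

/-- the space of embedded circles -/
abbrev Emb := {f : C(Circle, ℂ) // Function.Injective f}

theorem dense_U (h : C(ℝ, ℝ)) (M : ℕ) {δ : ℝ} (hδ : 0 < δ) {e1 e2 : ℝ} (he : e1 < e2) :
    Dense {f : Emb | f.1 ∈ U h M δ e1 e2} := by
  rw [Metric.dense_iff]
  intro f ε hε
  obtain ⟨g, hg, hd, t0, σ, z0, c, hσ, hc, h1, h2⟩ := insertion f.1 f.2 h M he hε
  refine ⟨⟨g, hg⟩, by rw [mem_ball]; exact hd, t0, σ, z0, c, hσ, hc, h1, fun s hs => ?_⟩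
  show ‖g (Circle.exp (t0 + σ * s)) - _‖ < _
  rw [h2 s hs, sub_self, norm_zero]
  positivity

/-- the set of injective maps is a `G_δ` -/
theorem isGδ_injective : IsGδ {f : C(Circle, ℂ) | Function.Injective f} := by
  have h1 : {f : C(Circle, ℂ) | Function.Injective f} =
      ⋂ n : ℕ, {f : C(Circle, ℂ) | ∀ p ∈ {p : Circle × Circle | 1 / ((n : ℝ) + 1) ≤ dist p.1 p.2},
        f p.1 ≠ f p.2} := by
    ext f
    simp only [mem_iInter, mem_ofPred_eq]
    constructor
    · intro hf n p hp h0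
      have := hf h0
      rw [this, dist_self] at hp
      have : (0 : ℝ) < 1 / ((n : ℝ) + 1) := by positivity
      linarith
    · intro hf x y hxy
      by_contra hne
      obtain ⟨n, hn⟩ := exists_nat_one_div_lt (dist_pos.2 hne)
      exact hf n (x, y) hn.le hxy
  rw [h1]
  refine IsGδ.iInter_of_isOpen fun n => ?_
  have hK : IsCompact {p : Circle × Circle | 1 / ((n : ℝ) + 1) ≤ dist p.1 p.2} :=
    (isClosed_le continuous_const (continuous_fst.dist continuous_snd)).isCompact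
  have h2 : {f : C(Circle, ℂ) | ∀ p ∈ {p : Circle × Circle | 1 / ((n : ℝ) + 1) ≤ dist p.1 p.2},
        f p.1 ≠ f p.2} = {f : C(Circle, ℂ) |
        ∀ p ∈ {p : Circle × Circle | 1 / ((n : ℝ) + 1) ≤ dist p.1 p.2},
          (f, p) ∈ {q : C(Circle, ℂ) × (Circle × Circle) | q.1 q.2.1 ≠ q.1 q.2.2}} := rfl
  rw [h2]
  have h3 : IsOpen {q : C(Circle, ℂ) × (Circle × Circle) | q.1 q.2.1 ≠ q.1 q.2.2} := by
    refine isOpen_ne_fun ?_ ?_
    · exact continuous_fst.eval (continuous_fst.comp continuous_snd)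
    · exact continuous_fst.eval (continuous_snd.comp continuous_snd)
  rw [isOpen_iff_mem_nhds]
  intro f hf
  have h4 : ∀ p ∈ {p : Circle × Circle | 1 / ((n : ℝ) + 1) ≤ dist p.1 p.2},
      ∀ᶠ q : C(Circle, ℂ) × (Circle × Circle) in 𝓝 (f, p), q.1 q.2.1 ≠ q.1 q.2.2 :=
    fun p hp => h3.mem_nhds (hf p hp)
  exact hK.eventually_forall_of_forall_eventually h4

/-- the space of embedded circles is a Baire space -/
theorem baireSpace_Emb : BaireSpace Emb := by
  set S : Set C(Circle, ℂ) := {f | Function.Injective f} with hS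
  have hcl : IsClosed (closure S) := isClosed_closure
  have : CompleteSpace (closure S) := hcl.completeSpace_coe
  set S' : Set (closure S) := Subtype.val ⁻¹' S with hS'
  have hG : IsGδ S' := isGδ_injective.preimage continuous_subtype_val
  have hd : Dense S' := by
    rw [dense_iff_closure_eq, eq_univ_iff_forall]
    intro x
    rw [closure_subtype]
    have h1 : (Subtype.val '' S' : Set C(Circle, ℂ)) = S := by
      rw [hS', Subtype.image_preimage_coe]
      exact inter_eq_right.2 subset_closure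
    rw [h1]
    exact x.2
  have := hG.baireSpace_of_dense hd
  refine Homeomorph.baireSpace (X := S') (Y := Emb)
    { toFun := fun x => ⟨x.1.1, x.2⟩
      invFun := fun x => ⟨⟨x.1, subset_closure x.2⟩, x.2⟩
      left_inv := fun _ => rfl
      right_inv := fun _ => rfl
      continuous_toFun := by fun_prop
      continuous_invFun := by fun_prop }

theorem exists_denseSeq (h : C(ℝ, ℝ)) (M : ℕ) {δ : ℝ} (hδ : 0 < δ) :
    ∃ n : ℕ, ∀ s ∈ Icc (-(M : ℝ)) M, |TopologicalSpace.denseSeq C(ℝ, ℝ) n s - h s| < δ := by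
  have h1 : ∀ᶠ g in 𝓝 h, ∀ s ∈ Icc (-(M : ℝ)) M, |g s - h s| < δ := by
    refine isCompact_Icc.eventually_forall_of_forall_eventually fun s _ => ?_
    have h2 : Continuous fun q : C(ℝ, ℝ) × ℝ => |q.1 q.2 - h q.2| :=
      ((continuous_fst.eval continuous_snd).sub (h.continuous.comp continuous_snd)).abs
    exact (isOpen_lt h2 continuous_const).mem_nhds (by simpa using hδ)
  obtain ⟨g, ⟨n, rfl⟩, hg⟩ := (TopologicalSpace.denseRange_denseSeq C(ℝ, ℝ)).inter_nhds_nonempty h1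
  exact ⟨n, hg⟩

/-- **A generic Jordan curve inscribes every quadrilateral**, near each of its points. -/
theorem generic : ∀ᶠ f : Emb in residual Emb, ∀ q : Fin 4 → ℂ, Function.Injective q →
    ∀ z ∈ range f.1, ∀ ε : ℝ, 0 < ε → ∃ α β : ℂ, α ≠ 0 ∧ ∀ i, α * q i + β ∈ range f.1 ∩ ball z ε := by
  have h1 : ∀ᶠ f : Emb in residual Emb, ∀ (n M k : ℕ) (e1 e2 : ℚ), e1 < e2 →
      f.1 ∈ U (TopologicalSpace.denseSeq C(ℝ, ℝ) n) M (1 / ((k : ℝ) + 1)) e1 e2 := by
    rw [eventually_countable_forall]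
    intro n
    rw [eventually_countable_forall]
    intro M
    rw [eventually_countable_forall]
    intro k
    rw [eventually_countable_forall]
    intro e1
    rw [eventually_countable_forall]
    intro e2
    rw [eventually_countable_forall]
    intro he
    exact residual_of_dense_open ((isOpen_U _ _ _ _ _).preimage continuous_subtype_val)
      (dense_U _ _ (by positivity) (by exact_mod_cast he))
  filter_upwards [h1] with f hf q hq z hz ε hε
  obtain ⟨w0, rfl⟩ := hz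
  obtain ⟨θ, -, rfl⟩ := exists_exp_Ico 0 w0
  have hFc : Continuous fun t : ℝ => f.1 (Circle.exp t) := f.1.continuous.comp Circle.exp.continuous
  obtain ⟨δ0, hδ0, hnear⟩ := Metric.continuous_iff.1 hFc θ ε hε
  obtain ⟨e1, he1, he1'⟩ := exists_rat_btwn (show θ - δ0 < θ by linarith)
  obtain ⟨e2, he2, he2'⟩ := exists_rat_btwn (show θ < θ + δ0 by linarith)
  obtain ⟨h, M, δ, hδ, hg⟩ := gadget q hq
  obtain ⟨n, hn⟩ := exists_denseSeq h M (half_pos hδ)
  obtain ⟨k, hk⟩ := exists_nat_one_div_lt (half_pos hδ)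
  obtain ⟨t0, σ, z0, c, hσ, hc, hs1, hs2⟩ := hf n M k e1 e2 (by exact_mod_cast he1'.trans he2)
  have hcn : 0 < ‖c‖ := norm_pos_iff.2 hc
  obtain ⟨α, β, hα, hi⟩ := hg (fun s => (f.1 (Circle.exp (t0 + σ * s)) - z0) / c)
    (by fun_prop) (by
      intro s hs
      have h2 := hs2 s hs
      have h3 := hn s hs
      set hn' : ℝ := TopologicalSpace.denseSeq C(ℝ, ℝ) n s with hhn'
      have h4 : (f.1 (Circle.exp (t0 + σ * s)) - z0) / c - (s + h s * Complex.I) =
          (f.1 (Circle.exp (t0 + σ * s)) - (z0 + c * (s + hn' * Complex.I))) / c +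
          ((hn' - h s : ℝ) : ℂ) * Complex.I := by
        push_cast
        field_simp
        ring
      rw [h4]
      refine (norm_add_le _ _).trans ?_
      rw [norm_mul, Complex.norm_I, mul_one, Complex.norm_real, Real.norm_eq_abs, norm_div]
      have h5 : ‖f.1 (Circle.exp (t0 + σ * s)) - (z0 + c * (s + hn' * Complex.I))‖ / ‖c‖ ≤
          1 / ((k : ℝ) + 1) := by
        rw [div_le_iff₀ hcn]
        exact h2.le
      linarith)
  refine ⟨c * α, c * β + z0, mul_ne_zero hc hα, fun i => ?_⟩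
  obtain ⟨s, hs, hse⟩ := hi i
  have h2 : c * α * q i + (c * β + z0) = f.1 (Circle.exp (t0 + σ * s)) := by
    have h3 : c * (α * q i + β) = f.1 (Circle.exp (t0 + σ * s)) - z0 := by
      rw [hse]
      field_simp
    linear_combination h3
  rw [h2]
  refine ⟨mem_range_self _, ?_⟩
  rw [mem_ball]
  apply hnear
  have h3 := hs1 s hs
  rw [Real.dist_eq, abs_lt]
  constructor <;> linarith [h3.1, h3.2]

end Pool.Agent.Work.MP_7ec17a_gt
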