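import Pool.Agent.Work.MP_7ec17a_gt.Generic

/-!
# A generic Jordan curve inscribes rectangles of every aspect ratio, indeed every quadrilateral
-/

namespace Pool.Agent.Work.MP_7ec17a_gt.GenericCurves

/-- The space of all continuous injective maps from the circle to the plane (with the metric of
uniform convergence) is a Baire space and has a dense `G_δ` subset `G` such that for every curve in `G`, every
quadrilateral `q` with four distinct vertices, every point `z` of the curve and every `ε > 0`, the
curve passes through the four vertices of an orientation preserving similar copy of `q` which lies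
in the disc of radius `ε` about `z`. -/
theorem result :
    BaireSpace {f : C(Circle, ℂ) // Function.Injective f} ∧
    ∃ G : Set {f : C(Circle, ℂ) // Function.Injective f}, IsGδ G ∧ Dense G ∧
      ∀ f ∈ G, ∀ q : Fin 4 → ℂ, Function.Injective q →
        ∀ z ∈ Set.range f.1, ∀ ε : ℝ, 0 < ε →
          ∃ α β : ℂ, α ≠ 0 ∧ ∀ i, α * q i + β ∈ Set.range f.1 ∩ Metric.ball z ε := by
  obtain ⟨G, hG, hGδ, hd⟩ := (@mem_residual _ _
    Pool.Agent.Work.MP_7ec17a_gt.baireSpace_Emb _).1 Pool.Agent.Work.MP_7ec17a_gt.generic
  exact ⟨Pool.Agent.Work.MP_7ec17a_gt.baireSpace_Emb, G, hGδ, hd, fun f hf => hG hf⟩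

end Pool.Agent.Work.MP_7ec17a_gt.GenericCurves
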