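import Pool.Agent.Work.MP_7ec17a_gt.Surgery

/-!
# Inserting a small copy of a given graph arc in an embedded circle
-/

open Set Metric Topology

namespace Pool.Agent.Work.MP_7ec17a_gt

/-- a graph arc from `0` to `1` in the unit disc which contains a small copy of the graph of `h`
over `[-M, M]` -/
theorem exists_arc (h : C(ℝ, ℝ)) (M : ℕ) (w : ℂ) (hw : ‖w‖ = 1) (hw1 : w ≠ 1) :
    ∃ (Φ : ℝ → ℂ) (κ : ℝ), 0 < κ ∧ κ * M ≤ 1 / 4 ∧ Continuous Φ ∧ (∀ τ, (Φ τ).re = τ) ∧
      Φ 0 = 0 ∧ Φ 1 = 1 ∧ (∀ τ, 0 ≤ τ → τ < 1 → ‖Φ τ‖ < 1) ∧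
      (∀ τ, 0 ≤ τ → ∀ σ : ℝ, 0 < σ → w * σ ≠ Φ τ) ∧
      ∀ s ∈ Icc (-(M : ℝ)) M, Φ (1 / 2 + κ * s) = 1 / 2 + κ * (s + h s * Complex.I) := by
  -- the cut off function
  set H : ℝ → ℝ := fun s => h s * max 0 (min 1 (M + 1 - |s|)) with hH
  have hHc : Continuous H := by
    rw [hH]
    fun_prop
  have hH1 : ∀ s ∈ Icc (-(M : ℝ)) M, H s = h s := by
    intro s hs
    have h1 : |s| ≤ M := abs_le.2 hs
    simp only [hH]
    rw [min_eq_left (by linarith), max_eq_right (by norm_num), mul_one]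
  have hH0 : ∀ s, (M : ℝ) + 1 ≤ |s| → H s = 0 := by
    intro s hs
    simp only [hH]
    rw [max_eq_left ((min_le_right _ _).trans (by linarith)), mul_zero]
  obtain ⟨C, hC⟩ : ∃ C : ℝ, ∀ s, |H s| ≤ C := by
    obtain ⟨C, hC⟩ := (isCompact_Icc (a := -((M : ℝ) + 1)) (b := (M : ℝ) + 1)).exists_bound_of_continuousOn
      hHc.continuousOn
    refine ⟨max C 0, fun s => ?_⟩
    rcases le_or_gt ((M : ℝ) + 1) |s| with h1 | h1
    · rw [hH0 s h1, abs_zero]
      exact le_max_right _ _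
    · exact (hC s (abs_le.1 h1.le)).trans (le_max_left _ _)
  have hC0 : 0 ≤ C := (abs_nonneg _).trans (hC 0)
  have hw2 : 0 < ‖w - 1‖ := norm_pos_iff.2 (sub_ne_zero.2 hw1)
  have hw3 : ‖w - 1‖ ≤ 2 := (norm_sub_le _ _).trans (by rw [hw, norm_one]; norm_num)
  obtain ⟨κ, hκ, hκM, hκC⟩ : ∃ κ : ℝ, 0 < κ ∧ κ * (M + 1) ≤ 1 / 4 ∧ κ * C < ‖w - 1‖ / 16 := by
    refine ⟨min (1 / (4 * (M + 1))) (‖w - 1‖ / (32 * (C + 1))), by positivity, ?_, ?_⟩
    · calc min (1 / (4 * ((M : ℝ) + 1))) (‖w - 1‖ / (32 * (C + 1))) * (M + 1) ≤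
          (1 / (4 * ((M : ℝ) + 1))) * (M + 1) := by gcongr; exact min_le_left _ _
        _ = 1 / 4 := by field_simp
    · calc min (1 / (4 * ((M : ℝ) + 1))) (‖w - 1‖ / (32 * (C + 1))) * C ≤
          (‖w - 1‖ / (32 * (C + 1))) * C := by gcongr; exact min_le_right _ _
        _ ≤ (‖w - 1‖ / (32 * (C + 1))) * (C + 1) := by gcongr; linarith
        _ = ‖w - 1‖ / 32 := by field_simp
        _ < ‖w - 1‖ / 16 := by linarith
  set Φ : ℝ → ℂ := fun τ => τ + (κ * H ((τ - 1 / 2) / κ) : ℝ) * Complex.I with hΦ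
  have hsmall : ∀ τ, ‖Φ τ - τ‖ < ‖w - 1‖ / 16 := by
    intro τ
    have h1 : Φ τ - τ = (κ * H ((τ - 1 / 2) / κ) : ℝ) * Complex.I := by
      rw [hΦ]
      simp only
      ring
    rw [h1, norm_mul, Complex.norm_I, mul_one, Complex.norm_real, Real.norm_eq_abs, abs_mul,
      abs_of_pos hκ]
    calc κ * |H ((τ - 1 / 2) / κ)| ≤ κ * C := by gcongr; exact hC _
      _ < _ := hκC
  have hout : ∀ τ, 1 / 4 ≤ |τ - 1 / 2| → Φ τ = τ := by
    intro τ hτ
    have h1 : H ((τ - 1 / 2) / κ) = 0 := by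
      apply hH0
      rw [abs_div, abs_of_pos hκ, le_div_iff₀ hκ]
      linarith
    show (τ : ℂ) + (κ * H ((τ - 1 / 2) / κ) : ℝ) * Complex.I = τ
    rw [h1]
    simp
  refine ⟨Φ, κ, hκ, by linarith, ?_, ?_, ?_, ?_, ?_, ?_, ?_⟩
  · rw [hΦ]
    fun_prop
  · intro τ
    rw [hΦ]
    simp
  · rw [hout 0 (by norm_num)]
    simp
  · rw [hout 1 (by norm_num)]
    simp
  · intro τ h0 h1
    rcases le_or_gt (1 / 4) |τ - 1 / 2| with h2 | h2
    · rw [hout τ h2, Complex.norm_real, Real.norm_eq_abs, abs_of_nonneg h0]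
      exact h1
    · rw [abs_lt] at h2
      have h3 : ‖Φ τ‖ ≤ ‖Φ τ - τ‖ + ‖(τ : ℂ)‖ := by
        have : Φ τ = (Φ τ - τ) + τ := by ring
        conv_lhs => rw [this]
        exact norm_add_le _ _
      rw [Complex.norm_real, Real.norm_eq_abs, abs_of_nonneg h0] at h3
      have h4 := hsmall τ
      linarith [h2.2]
  · intro τ h0 σ hσ hΦσ
    have h1 : σ = ‖Φ τ‖ := by
      rw [← hΦσ, norm_mul, hw, one_mul, Complex.norm_real, Real.norm_eq_abs, abs_of_pos hσ]
    rcases le_or_gt (1 / 4) |τ - 1 / 2| with h2 | h2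
    · rw [hout τ h2, Complex.norm_real, Real.norm_eq_abs, abs_of_nonneg h0] at h1
      rw [hout τ h2, h1] at hΦσ
      have hτ : (τ : ℂ) ≠ 0 := by
        rw [← h1]
        exact_mod_cast hσ.ne'
      apply hw1
      apply mul_right_cancel₀ hτ
      rw [hΦσ, one_mul]
    · rw [abs_lt] at h2
      have h3 := hsmall τ
      have h4 : ‖(τ : ℂ) - σ‖ ≤ ‖Φ τ - τ‖ := by
        rw [← Complex.ofReal_sub, Complex.norm_real, Real.norm_eq_abs, h1]
        have h5 : |‖(τ : ℂ)‖ - ‖Φ τ‖| ≤ ‖(τ : ℂ) - Φ τ‖ := abs_norm_sub_norm_le _ _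
        rw [Complex.norm_real, Real.norm_eq_abs, abs_of_nonneg h0, norm_sub_rev] at h5
        exact h5
      have h6 : 1 / 8 < σ := by
        have h7 : τ - σ ≤ ‖(τ : ℂ) - σ‖ := by
          rw [← Complex.ofReal_sub, Complex.norm_real]
          exact le_abs_self _
        linarith [h2.1]
      have h7 : ‖w - 1‖ * σ ≤ ‖Φ τ - τ‖ + ‖(τ : ℂ) - σ‖ := by
        have h8 : (w - 1) * σ = (Φ τ - τ) + (τ - σ) := by
          rw [← hΦσ]
          ring
        calc ‖w - 1‖ * σ = ‖(w - 1) * σ‖ := by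
              rw [norm_mul, Complex.norm_real, Real.norm_eq_abs, abs_of_pos hσ]
          _ = ‖(Φ τ - τ) + (τ - σ)‖ := by rw [h8]
          _ ≤ _ := norm_add_le _ _
      nlinarith
  · intro s hs
    rw [hΦ]
    simp only
    have h1 : (1 / 2 + κ * s - 1 / 2) / κ = s := by
      field_simp
      ring
    rw [h1, hH1 s hs]
    push_cast
    ring

/-- **insertion**: every embedded circle can be perturbed to one which contains a small copy of the
graph of `h` over `[-M, M]` inside a given arc -/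
theorem insertion (f : C(Circle, ℂ)) (hf : Function.Injective f) (h : C(ℝ, ℝ)) (M : ℕ)
    {e1 e2 : ℝ} (he : e1 < e2) {ε : ℝ} (hε : 0 < ε) :
    ∃ g : C(Circle, ℂ), Function.Injective g ∧ dist g f < ε ∧ ∃ (t0 σ : ℝ) (z0 c : ℂ),
      0 < σ ∧ c ≠ 0 ∧ (∀ s ∈ Icc (-(M : ℝ)) M, t0 + σ * s ∈ Ioo e1 e2) ∧
      ∀ s ∈ Icc (-(M : ℝ)) M, g (Circle.exp (t0 + σ * s)) = z0 + c * (s + h s * Complex.I) := by
  have hpi := Real.pi_pos
  obtain ⟨p, R, a, b, hR, hRε, ha, hab, hb, hb2, haR, hbR, hnear, hrest⟩ :=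
    crossing f hf e1 e2 he (ε / 3) (by positivity)
  set u : ℂ := f (Circle.exp a) with hu
  set v : ℂ := f (Circle.exp b) with hv
  have hup : u - p ≠ 0 := by
    rw [← norm_pos_iff, haR]
    exact hR
  have hvp : v - p ≠ 0 := by
    rw [← norm_pos_iff, hbR]
    exact hR
  set w : ℂ := (u - p) / (v - p) with hw
  have hwn : ‖w‖ = 1 := by
    rw [hw, norm_div, haR, hbR, div_self hR.ne']
  have hw1 : w ≠ 1 := by
    intro h0
    rw [hw, div_eq_one_iff_eq hvp] at h0
    have h1 : u = v := by linear_combination h0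
    have h2 := exp_inj_Ico (a := a) ⟨le_rfl, by linarith⟩ ⟨hab.le, hb2⟩ (hf h1)
    linarith
  have hwv : u - p = (v - p) * w := by
    rw [hw]
    field_simp
  obtain ⟨Φ, κ, hκ, hκM, hΦc, hΦre, hΦ0, hΦ1, hΦlt, hΦw, hΦs⟩ := exists_arc h M w hwn hw1
  set m : ℝ := (a + b) / 2 with hm
  have ham : a < m := by rw [hm]; linarith
  have hmb : m < b := by rw [hm]; linarith
  set γ : ℝ → ℂ := fun t => if t ≤ m then p + (u - p) * ((m - t) / (m - a) : ℝ)
    else p + (v - p) * Φ ((t - m) / (b - m)) with hγ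
  have hγ1 : ∀ t ≤ m, γ t = p + (u - p) * ((m - t) / (m - a) : ℝ) := fun t ht => if_pos ht
  have hγ2 : ∀ t, m ≤ t → γ t = p + (v - p) * Φ ((t - m) / (b - m)) := by
    intro t ht
    rcases ht.eq_or_lt with h1 | h1
    · rw [← h1, hγ1 m le_rfl, sub_self, zero_div, zero_div, hΦ0]
      simp
    · exact if_neg (not_le.2 h1)
  have hma : 0 < m - a := by linarith
  have hbm : 0 < b - m := by linarith
  have hγc : Continuous γ := by
    rw [hγ]
    refine Continuous.if_le ?_ ?_ continuous_id continuous_const ?_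
    · fun_prop
    · exact continuous_const.add (continuous_const.mul (hΦc.comp (by fun_prop)))
    · rintro t rfl
      simp [hΦ0]
  have hγa : γ a = u := by
    rw [hγ1 a ham.le, div_self hma.ne']
    simp
  have hγb : γ b = v := by
    rw [hγ2 b hmb.le, div_self hbm.ne', hΦ1]
    ring
  have hcross : ∀ t ∈ Icc a b, ∀ s ∈ Icc a b, t < m → m ≤ s → γ t ≠ γ s := by
    intro t ht s hs htm hms h0
    rw [hγ1 t htm.le, hγ2 s hms, hwv, mul_assoc] at h0
    have h1 := mul_left_cancel₀ hvp (add_left_cancel h0)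
    exact hΦw _ (div_nonneg (by linarith) hbm.le) _ (div_pos (by linarith) hma) h1
  have hinj : InjOn γ (Icc a b) := by
    intro t ht s hs hts
    rcases lt_or_ge t m with h1 | h1 <;> rcases lt_or_ge s m with h2 | h2
    · rw [hγ1 t h1.le, hγ1 s h2.le] at hts
      have h3 := mul_left_cancel₀ hup (add_left_cancel hts)
      have h4 : (m - t) / (m - a) = (m - s) / (m - a) := by exact_mod_cast h3
      rw [div_left_inj' hma.ne'] at h4
      linarith
    · exact absurd hts (hcross t ht s hs h1 h2)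
    · exact absurd hts.symm (hcross s hs t ht h2 h1)
    · rw [hγ2 t h1, hγ2 s h2] at hts
      have h3 := mul_left_cancel₀ hvp (add_left_cancel hts)
      have h4 := congrArg Complex.re h3
      rw [hΦre, hΦre, div_left_inj' hbm.ne'] at h4
      linarith
  have hlt : ∀ t ∈ Ioo a b, ‖γ t - p‖ < R := by
    intro t ht
    rcases lt_or_ge t m with h1 | h1
    · rw [hγ1 t h1.le, add_sub_cancel_left, norm_mul, haR, Complex.norm_real, Real.norm_eq_abs,
        abs_of_nonneg (div_nonneg (by linarith) hma.le)]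
      have h2 : (m - t) / (m - a) < 1 := by
        rw [div_lt_one hma]
        linarith [ht.1]
      nlinarith
    · rw [hγ2 t h1, add_sub_cancel_left, norm_mul, hbR]
      have h2 := hΦlt ((t - m) / (b - m)) (div_nonneg (by linarith) hbm.le) (by
        rw [div_lt_one hbm]
        linarith [ht.2])
      nlinarith
  obtain ⟨g, hg, hg1, hg2⟩ := surgery f hf hab hb2 γ hγc.continuousOn hinj hγa hγb (by
    intro t ht s hs h0
    have h1 := hlt t ht
    have h2 := hrest s hs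
    rw [h0] at h1
    linarith)
  refine ⟨g, hg, ?_, m + (b - m) / 2, (b - m) * κ, p + (v - p) / 2, (v - p) * κ, by positivity,
    mul_ne_zero hvp (by exact_mod_cast hκ.ne'), ?_, ?_⟩
  · rw [ContinuousMap.dist_lt_iff hε]
    intro z
    obtain ⟨t, ht, rfl⟩ := exists_exp_Ico a z
    rcases le_or_gt t b with h1 | h1
    · rw [hg1 t ⟨ht.1, h1⟩, dist_eq_norm]
      have h2 : ‖γ t - p‖ ≤ R := by
        rcases ht.1.eq_or_lt with h3 | h3
        · rw [← h3, hγa, haR]
        · rcases h1.eq_or_lt with h4 | h4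
          · rw [h4, hγb, hbR]
          · exact (hlt t ⟨h3, h4⟩).le
      have h3 := hnear t ⟨ht.1, h1⟩
      calc ‖γ t - f (Circle.exp t)‖ = ‖(γ t - p) - (f (Circle.exp t) - p)‖ := by congr 1; ring
        _ ≤ ‖γ t - p‖ + ‖f (Circle.exp t) - p‖ := norm_sub_le _ _
        _ ≤ R + ε / 3 := by gcongr
        _ < ε := by linarith
    · rw [hg2 t ⟨h1.le, ht.2.le⟩, dist_self]
      exact hε
  · intro s hs
    have h1 : |κ * s| ≤ 1 / 4 := by
      rw [abs_mul, abs_of_pos hκ]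
      calc κ * |s| ≤ κ * M := by gcongr; exact abs_le.2 hs
        _ ≤ 1 / 4 := hκM
    rw [abs_le] at h1
    constructor
    · nlinarith [h1.1]
    · nlinarith [h1.2]
  · intro s hs
    have h1 : |κ * s| ≤ 1 / 4 := by
      rw [abs_mul, abs_of_pos hκ]
      calc κ * |s| ≤ κ * M := by gcongr; exact abs_le.2 hs
        _ ≤ 1 / 4 := hκM
    rw [abs_le] at h1
    have h2 : m ≤ m + (b - m) / 2 + (b - m) * κ * s := by nlinarith [h1.1]
    have h3 : m + (b - m) / 2 + (b - m) * κ * s ≤ b := by nlinarith [h1.2]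
    rw [hg1 _ ⟨by linarith, h3⟩, hγ2 _ h2]
    have h4 : (m + (b - m) / 2 + (b - m) * κ * s - m) / (b - m) = 1 / 2 + κ * s := by
      field_simp
      ring
    rw [h4, hΦs s hs]
    ring

end Pool.Agent.Work.MP_7ec17a_gt
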