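import Pool.Agent.Work.MP_7ec17a_gt.Gadget

/-!
# Surgery on embedded circles: inserting a given graph arc
-/

open Set Metric Topology

namespace Pool.Agent.Work.MP_7ec17a_gt

theorem exp_inj_Ico {a s t : ℝ} (hs : s ∈ Ico a (a + 2 * Real.pi)) (ht : t ∈ Ico a (a + 2 * Real.pi))
    (h : Circle.exp s = Circle.exp t) : s = t := by
  obtain ⟨m, hm⟩ := Circle.exp_eq_exp.1 h
  have hpi := Real.pi_pos
  have h1 : (m : ℝ) < 1 := by
    have : (m : ℝ) * (2 * Real.pi) < 1 * (2 * Real.pi) := by linarith [hs.2, ht.1]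
    exact lt_of_mul_lt_mul_right this (by positivity)
  have h2 : (-1 : ℝ) < m := by
    have : (-1 : ℝ) * (2 * Real.pi) < m * (2 * Real.pi) := by linarith [hs.1, ht.2]
    exact lt_of_mul_lt_mul_right this (by positivity)
  have h3 : m = 0 := by
    have h1' : m < 1 := by exact_mod_cast h1
    have h2' : -1 < m := by exact_mod_cast h2
    omega
  rw [hm, h3]
  simp

theorem exists_exp_Ico (a : ℝ) (z : Circle) : ∃ t ∈ Ico a (a + 2 * Real.pi), Circle.exp t = z := by
  refine ⟨toIcoMod Real.two_pi_pos a (Complex.arg z), toIcoMod_mem_Ico _ _ _, ?_⟩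
  rw [toIcoMod, zsmul_eq_mul]
  have h1 : Circle.exp ((Complex.arg (z : ℂ)) -
      (toIcoDiv Real.two_pi_pos a (Complex.arg z) : ℝ) * (2 * Real.pi)) =
      Circle.exp (Complex.arg (z : ℂ)) := by
    rw [Circle.exp_eq_exp]
    exact ⟨-toIcoDiv Real.two_pi_pos a (Complex.arg z), by push_cast; ring⟩
  rw [h1]
  exact Circle.exp_arg z

/-- replacing an arc of an embedded circle by another arc -/
theorem surgery (f : C(Circle, ℂ)) (hf : Function.Injective f) {a b : ℝ} (hab : a < b)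
    (hb : b < a + 2 * Real.pi) (γ : ℝ → ℂ) (hγ : ContinuousOn γ (Icc a b))
    (hinj : InjOn γ (Icc a b)) (hγa : γ a = f (Circle.exp a)) (hγb : γ b = f (Circle.exp b))
    (hdis : ∀ t ∈ Ioo a b, ∀ s ∈ Icc b (a + 2 * Real.pi), γ t ≠ f (Circle.exp s)) :
    ∃ g : C(Circle, ℂ), Function.Injective g ∧ (∀ t ∈ Icc a b, g (Circle.exp t) = γ t) ∧
      ∀ t ∈ Icc b (a + 2 * Real.pi), g (Circle.exp t) = f (Circle.exp t) := by
  have hpi := Real.pi_pos
  have : Fact (0 < 2 * Real.pi) := ⟨Real.two_pi_pos⟩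
  set G : ℝ → ℂ := fun t => if t ≤ b then γ t else f (Circle.exp t) with hG
  have hG1 : ∀ t ≤ b, G t = γ t := fun t ht => if_pos ht
  have hG2 : ∀ t, b ≤ t → G t = f (Circle.exp t) := by
    intro t ht
    rcases ht.eq_or_lt with h | h
    · rw [← h, hG1 b le_rfl, hγb]
    · exact if_neg (not_le.2 h)
  have hper : Circle.exp (a + 2 * Real.pi) = Circle.exp a := by
    rw [Circle.exp_eq_exp]
    exact ⟨1, by simp⟩
  have hGa : G a = G (a + 2 * Real.pi) := by
    rw [hG1 a hab.le, hG2 _ hb.le, hper, hγa]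
  have hGc : ContinuousOn G (Icc a (a + 2 * Real.pi)) := by
    have h1 : ContinuousOn G (Icc a b) := hγ.congr fun t ht => hG1 t ht.2
    have h2 : ContinuousOn G (Icc b (a + 2 * Real.pi)) :=
      (f.continuous.comp Circle.exp.continuous).continuousOn.congr fun t ht => hG2 t ht.1
    have h3 := h1.union_of_isClosed h2 isClosed_Icc isClosed_Icc
    rwa [Icc_union_Icc_eq_Icc hab.le hb.le] at h3
  set g : C(Circle, ℂ) := ⟨fun z => AddCircle.liftIco (2 * Real.pi) a G
    (AddCircle.homeomorphCircle'.symm z),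
    (AddCircle.liftIco_continuous hGa hGc).comp AddCircle.homeomorphCircle'.symm.continuous⟩ with hg
  have hgG : ∀ t ∈ Ico a (a + 2 * Real.pi), g (Circle.exp t) = G t := by
    intro t ht
    show AddCircle.liftIco (2 * Real.pi) a G (AddCircle.homeomorphCircle'.symm (Circle.exp t)) = G t
    rw [← AddCircle.homeomorphCircle'_apply_mk, Homeomorph.symm_apply_apply]
    exact AddCircle.liftIco_coe_apply ht
  refine ⟨g, ?_, ?_, ?_⟩
  · have key : ∀ t ∈ Ico a (a + 2 * Real.pi), ∀ s ∈ Ico a (a + 2 * Real.pi), t ≤ b → b < s →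
        γ t ≠ f (Circle.exp s) := by
      intro t ht s hs htb hsb h
      rcases ht.1.eq_or_lt with h1 | h1
      · rw [← h1, hγa] at h
        have := exp_inj_Ico ⟨le_rfl, by linarith⟩ hs (hf h)
        linarith
      · rcases htb.eq_or_lt with h2 | h2
        · rw [h2, hγb] at h
          have := exp_inj_Ico ⟨hab.le, hb⟩ hs (hf h)
          linarith
        · exact hdis t ⟨h1, h2⟩ s ⟨hsb.le, hs.2.le⟩ h
    intro z w hzw
    obtain ⟨t, ht, rfl⟩ := exists_exp_Ico a z
    obtain ⟨s, hs, rfl⟩ := exists_exp_Ico a w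
    rw [hgG t ht, hgG s hs] at hzw
    congr 1
    rcases le_or_gt t b with h1 | h1 <;> rcases le_or_gt s b with h2 | h2
    · rw [hG1 t h1, hG1 s h2] at hzw
      exact hinj ⟨ht.1, h1⟩ ⟨hs.1, h2⟩ hzw
    · rw [hG1 t h1, hG2 s h2.le] at hzw
      exact absurd hzw (key t ht s hs h1 h2)
    · rw [hG2 t h1.le, hG1 s h2] at hzw
      exact absurd hzw.symm (key s hs t ht h2 h1)
    · rw [hG2 t h1.le, hG2 s h2.le] at hzw
      exact exp_inj_Ico ht hs (hf hzw)
  · intro t ht
    rw [hgG t ⟨ht.1, ht.2.trans_lt hb⟩, hG1 t ht.2]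
  · intro t ht
    rcases ht.2.eq_or_lt with h | h
    · rw [h, hper, hgG a ⟨le_rfl, by linarith⟩, hG1 a hab.le, hγa]
    · rw [hgG t ⟨hab.le.trans ht.1, h⟩, hG2 t ht.1]

/-- near each parameter, the curve crosses a small closed disc in a single essential arc -/
theorem crossing (f : C(Circle, ℂ)) (hf : Function.Injective f) (e1 e2 : ℝ) (he : e1 < e2)
    (ε : ℝ) (hε : 0 < ε) : ∃ (p : ℂ) (R a b : ℝ), 0 < R ∧ R ≤ ε ∧ e1 < a ∧ a < b ∧ b < e2 ∧
      b < a + 2 * Real.pi ∧ ‖f (Circle.exp a) - p‖ = R ∧ ‖f (Circle.exp b) - p‖ = R ∧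
      (∀ t ∈ Icc a b, ‖f (Circle.exp t) - p‖ ≤ ε) ∧
      ∀ s ∈ Icc b (a + 2 * Real.pi), R ≤ ‖f (Circle.exp s) - p‖ := by
  have hpi := Real.pi_pos
  set F : ℝ → ℂ := fun t => f (Circle.exp t) with hF
  have hFc : Continuous F := f.continuous.comp Circle.exp.continuous
  set θ : ℝ := (e1 + e2) / 2 with hθ
  set p : ℂ := F θ with hp
  obtain ⟨η0, hη0, hη0F⟩ := Metric.continuous_iff.1 hFc θ ε hε
  obtain ⟨η, hη, h1, h2, h3⟩ : ∃ η : ℝ, 0 < η ∧ η < η0 ∧ η < Real.pi ∧ η < (e2 - e1) / 2 := by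
    refine ⟨min η0 (min Real.pi ((e2 - e1) / 2)) / 2, ?_, ?_, ?_, ?_⟩
    · have : 0 < (e2 - e1) / 2 := by linarith
      positivity
    · have : 0 < (e2 - e1) / 2 := by linarith
      have h4 := min_le_left η0 (min Real.pi ((e2 - e1) / 2))
      have h5 : 0 < min η0 (min Real.pi ((e2 - e1) / 2)) := by positivity
      linarith
    · have : 0 < (e2 - e1) / 2 := by linarith
      have h4 := (min_le_right η0 (min Real.pi ((e2 - e1) / 2))).trans (min_le_left _ _)
      have h5 : 0 < min η0 (min Real.pi ((e2 - e1) / 2)) := by positivity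
      linarith
    · have : 0 < (e2 - e1) / 2 := by linarith
      have h4 := (min_le_right η0 (min Real.pi ((e2 - e1) / 2))).trans (min_le_right _ _)
      have h5 : 0 < min η0 (min Real.pi ((e2 - e1) / 2)) := by positivity
      linarith
  have hnear : ∀ t ∈ Icc (θ - η) (θ + η), ‖F t - p‖ ≤ ε := by
    intro t ht
    rw [← dist_eq_norm]
    refine (hη0F t ?_).le
    rw [Real.dist_eq, abs_lt]
    constructor <;> linarith [ht.1, ht.2]
  have hper : ∀ t, F (t + 2 * Real.pi) = F t := by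
    intro t
    have : Circle.exp (t + 2 * Real.pi) = Circle.exp t := by
      rw [Circle.exp_eq_exp]
      exact ⟨1, by simp⟩
    simp only [hF, this]
  -- the distance to the rest of the curve
  have hgc : Continuous fun t => ‖F t - p‖ := (hFc.sub continuous_const).norm
  obtain ⟨t1, ht1, ht1m⟩ := isCompact_Icc.exists_isMinOn
    (⟨θ + η, le_rfl, by linarith⟩ : (Icc (θ + η) (θ - η + 2 * Real.pi)).Nonempty) hgc.continuousOn
  have hρ : 0 < ‖F t1 - p‖ := by
    rw [norm_pos_iff, sub_ne_zero]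
    intro h
    have := exp_inj_Ico (a := θ) ⟨by linarith [ht1.1], by linarith [ht1.2]⟩
      ⟨le_rfl, by linarith⟩ (hf h)
    linarith [ht1.1]
  set R : ℝ := min (‖F t1 - p‖ / 2) ε with hR
  have hR0 : 0 < R := by positivity
  have hRρ : R < ‖F t1 - p‖ := (min_le_left _ _).trans_lt (by linarith)
  have hrest : ∀ s ∈ Icc (θ + η) (θ - η + 2 * Real.pi), R < ‖F s - p‖ :=
    fun s hs => hRρ.trans_le (ht1m hs)
  have hendr : R < ‖F (θ + η) - p‖ := hrest _ ⟨le_rfl, by linarith⟩
  have hendl : R < ‖F (θ - η) - p‖ := by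
    rw [← hper (θ - η)]
    exact hrest _ ⟨by linarith, le_rfl⟩
  -- first and last visits
  set A : Set ℝ := Icc (θ - η) (θ + η) ∩ {t | ‖F t - p‖ ≤ R} with hA
  have hAc : IsCompact A := isCompact_Icc.inter_right (isClosed_le hgc continuous_const)
  have hθA : θ ∈ A := ⟨⟨by linarith, by linarith⟩, by
    show ‖F θ - p‖ ≤ R
    rw [hp, sub_self, norm_zero]
    exact hR0.le⟩
  obtain ⟨a, haA, ham⟩ := hAc.exists_isLeast ⟨θ, hθA⟩
  obtain ⟨b, hbA, hbm⟩ := hAc.exists_isGreatest ⟨θ, hθA⟩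
  have haR : ‖F a - p‖ = R := by
    obtain ⟨t, ht, hte⟩ := intermediate_value_Icc' haA.1.1 hgc.continuousOn
      (⟨haA.2, hendl.le⟩ : R ∈ Icc ‖F a - p‖ ‖F (θ - η) - p‖)
    have h4 : a ≤ t := ham ⟨⟨ht.1, ht.2.trans haA.1.2⟩, hte.le⟩
    have h5 : t = a := le_antisymm ht.2 h4
    rw [← h5]
    exact hte
  have hbR : ‖F b - p‖ = R := by
    obtain ⟨t, ht, hte⟩ := intermediate_value_Icc hbA.1.2 hgc.continuousOn
      (⟨hbA.2, hendr.le⟩ : R ∈ Icc ‖F b - p‖ ‖F (θ + η) - p‖)
    have h4 : t ≤ b := hbm ⟨⟨hbA.1.1.trans ht.1, ht.2⟩, hte.le⟩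
    have h5 : t = b := le_antisymm h4 ht.1
    rw [← h5]
    exact hte
  have haθ : a < θ := by
    rcases (ham hθA).eq_or_lt with h | h
    · exfalso
      rw [h, hp, sub_self, norm_zero] at haR
      linarith
    · exact h
  have hbθ : θ < b := by
    rcases (hbm hθA).eq_or_lt with h | h
    · exfalso
      rw [← h, hp, sub_self, norm_zero] at hbR
      linarith
    · exact h
  have ha1 := haA.1.1
  have hb1 := hbA.1.2
  refine ⟨p, R, a, b, hR0, min_le_right _ _, by linarith, by linarith, by linarith, by linarith,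
    haR, hbR, ?_, ?_⟩
  · intro t ht
    exact hnear t ⟨by linarith [ht.1], by linarith [ht.2]⟩
  · intro s hs
    show R ≤ ‖F s - p‖
    rcases le_or_gt s (θ + η) with h4 | h4
    · by_contra h5
      rw [not_le] at h5
      have h6 : s ≤ b := hbm ⟨⟨by linarith [hs.1], h4⟩, h5.le⟩
      have h7 : s = b := le_antisymm h6 hs.1
      rw [h7, hbR] at h5
      exact lt_irrefl _ h5
    · rcases le_or_gt s (θ - η + 2 * Real.pi) with h5 | h5
      · exact (hrest s ⟨h4.le, h5⟩).le
      · by_contra h6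
        rw [not_le] at h6
        have h7 : F s = F (s - 2 * Real.pi) := by
          rw [← hper (s - 2 * Real.pi)]
          congr 1
          ring
        rw [h7] at h6
        have h8 : a ≤ s - 2 * Real.pi := ham ⟨⟨by linarith, by linarith [hs.2]⟩, h6.le⟩
        have h9 : s - 2 * Real.pi = a := le_antisymm (by linarith [hs.2]) h8
        rw [h9, haR] at h6
        exact lt_irrefl _ h6

end Pool.Agent.Work.MP_7ec17a_gt
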